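import Mathlib
import Pool.Agent.KS6_4.IC.C
import Pool.Agent.KS6_4.IC.D

/-!
# Isometric colourings of inner product spaces with only countable homogeneous sets

The question is about `ℝ`. One colouring of the distances works for all real inner product spaces
of countable (in particular of finite) dimension at the same time, and no colouring works for any
infinite-dimensional Hilbert space. So among the real Hilbert spaces exactly the finite-dimensional
ones have an isometric colouring with two colours all of whose homogeneous sets are countable.
-/

set_option autoImplicit false

namespace Pool.Agent.Results.MP_a23160_lc.InnerProductSpaces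

open scoped Cardinal

universe u v

/-- The colour `f (dist x y)` is the same for all distinct points `x`, `y` of `X`. -/
def Homogeneous {E : Type u} [NormedAddCommGroup E] {κ : Type v} (f : ℝ → κ) (X : Set E) : Prop :=
  ∃ c : κ, ∀ x ∈ X, ∀ y ∈ X, x ≠ y → f (dist x y) = c

/-- (1) There is one colouring `f` of the distances with two colours such that in every real inner
product space `E` of countable dimension (for example `ℝ`, or the Euclidean space of any finite
dimension) every set on which `f (dist x y)` is constant is countable.
(2) In an infinite-dimensional real Hilbert space there is, for every colouring of the distances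
with finitely many colours, a set of the cardinality of the continuum on which `f (dist x y)` is
constant.
(3) So a real Hilbert space has an isometric colouring with two colours all of whose homogeneous
sets are countable if and only if it is finite-dimensional. -/
theorem result :
    (∃ f : ℝ → Bool, ∀ (E : Type u) [NormedAddCommGroup E] [InnerProductSpace ℝ E],
      Module.rank ℝ E ≤ ℵ₀ → ∀ X : Set E, Homogeneous f X → X.Countable) ∧
    (∀ (H : Type u) [NormedAddCommGroup H] [InnerProductSpace ℝ H] [CompleteSpace H],
      ¬ FiniteDimensional ℝ H → ∀ (κ : Type v) [Finite κ] (f : ℝ → κ),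
        ∃ X : Set H, #X = 𝔠 ∧ Homogeneous f X) ∧
    (∀ (H : Type u) [NormedAddCommGroup H] [InnerProductSpace ℝ H] [CompleteSpace H],
      (∃ f : ℝ → Bool, ∀ X : Set H, Homogeneous f X → X.Countable) ↔ FiniteDimensional ℝ H) := by
  refine ⟨Pool.Agent.KS6_4.IC.good_colouring,
    fun H _ _ _ hH κ _ f => Pool.Agent.KS6_4.IC.hilbert H hH κ f, ?_⟩
  intro H _ _ _
  constructor
  · rintro ⟨f, hf⟩
    by_contra hH
    obtain ⟨X, hX, hX'⟩ := Pool.Agent.KS6_4.IC.hilbert H hH Bool f
    have h1 := hf X hX'
    rw [← Cardinal.le_aleph0_iff_set_countable, hX] at h1
    exact absurd h1 (not_le.2 Cardinal.aleph0_lt_continuum)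
  · intro hH
    obtain ⟨f, hf⟩ := Pool.Agent.KS6_4.IC.good_colouring.{u}
    exact ⟨f, fun X hX => hf H (Module.rank_lt_aleph0 ℝ H).le X hX⟩

end Pool.Agent.Results.MP_a23160_lc.InnerProductSpaces
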